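import Pool.Agent.K3h63.IQ.Stm

/-! IQ brick GRP for helper63: exchanges and actions on one factor lie in a finite group -/

set_option autoImplicit false
set_option linter.unusedSectionVars false

open CategoryTheory Limits MonoidalCategory
open Pool.Agent.Y112.KD Pool.Agent.K3h8.KS Pool.Agent.K3h63.IQ

namespace Pool.Agent.K3h68.IQ

universe v u w

/-- a product of two finite subgroups one of which normalises the other -/
theorem fin_group {A B U : Type*} [Group A] [Group B] [Finite A] [Finite B] [Group U] (δ : A →* U)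
    (σ : B →* U) (h : ∀ b a, ∃ a', σ b * δ a = δ a' * σ b) :
    ∃ Γ : Subgroup U, Finite Γ ∧ (∀ a, δ a ∈ Γ) ∧ ∀ b, σ b ∈ Γ := by
  let Γ : Subgroup U :=
    { carrier := Set.range fun p : A × B => δ p.1 * σ p.2
      one_mem' := ⟨(1, 1), by simp⟩
      mul_mem' := by
        rintro _ _ ⟨⟨a, b⟩, rfl⟩ ⟨⟨a', b'⟩, rfl⟩
        obtain ⟨a'', ha⟩ := h b a'
        refine ⟨(a * a'', b * b'), ?_⟩
        simp only [map_mul]
        calc δ a * δ a'' * (σ b * σ b') = δ a * (δ a'' * σ b) * σ b' := by simp only [mul_assoc]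
          _ = δ a * (σ b * δ a') * σ b' := by rw [ha]
          _ = δ a * σ b * (δ a' * σ b') := by simp only [mul_assoc]
      inv_mem' := by
        rintro _ ⟨⟨a, b⟩, rfl⟩
        obtain ⟨a', ha⟩ := h b⁻¹ a⁻¹
        refine ⟨(a', b⁻¹), ?_⟩
        simp only [mul_inv_rev]
        rw [← ha, map_inv, map_inv] }
  refine ⟨Γ, ?_, fun a => ⟨(a, 1), by simp⟩, fun b => ⟨(1, b), by simp⟩⟩
  exact Set.finite_coe_iff.2 (Set.finite_range fun p : A × B => δ p.1 * σ p.2)

section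

variable {C : Type u} [Category.{v} C] [MonoidalCategory C]

/-- the action of a family of group elements on the tensor power -/
def dl {G : Type} [Group G] {X : C} (ρ : G →* End X) : ∀ n : ℕ, (Fin n → G) → (tp X n ⟶ tp X n)
  | 0, _ => 𝟙 _
  | n + 1, g => dl ρ n (fun i => g i.castSucc) ⊗ₘ (ρ (g (Fin.last n)) : X ⟶ X)

theorem dl_succ {G : Type} [Group G] {X : C} (ρ : G →* End X) (n : ℕ) (g : Fin (n + 1) → G) :
    dl ρ (n + 1) g = dl ρ n (fun i => g i.castSucc) ⊗ₘ (ρ (g (Fin.last n)) : X ⟶ X) := rfl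

theorem dl_snoc {G : Type} [Group G] {X : C} (ρ : G →* End X) (n : ℕ) (g : Fin n → G) (x : G) :
    dl ρ (n + 1) (Fin.snoc g x : Fin (n + 1) → G) = dl ρ n g ⊗ₘ (ρ x : X ⟶ X) := by
  rw [dl_succ]
  have h1 : (fun i : Fin n => (Fin.snoc g x : Fin (n + 1) → G) i.castSucc) = g := by
    funext i
    exact Fin.snoc_castSucc (α := fun _ => G) _ _ _
  have h2 : (Fin.snoc g x : Fin (n + 1) → G) (Fin.last n) = x :=
    Fin.snoc_last (α := fun _ => G) _ _
  rw [h1, h2]

theorem dl_one {G : Type} [Group G] {X : C} (ρ : G →* End X) (n : ℕ) : dl ρ n 1 = 𝟙 _ := by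
  induction n with
  | zero => rfl
  | succ n ih =>
    rw [dl_succ]
    have h1 : (fun i : Fin n => (1 : Fin (n + 1) → G) i.castSucc) = 1 := rfl
    have h2 : ρ ((1 : Fin (n + 1) → G) (Fin.last n)) = 𝟙 X := by
      rw [Pi.one_apply, map_one]
      rfl
    rw [h1, h2, ih, id_tensorHom_id]

theorem dl_mul {G : Type} [Group G] {X : C} (ρ : G →* End X) (n : ℕ) (g h : Fin n → G) :
    dl ρ n (g * h) = dl ρ n h ≫ dl ρ n g := by
  induction n with
  | zero =>
    change 𝟙 _ = 𝟙 _ ≫ 𝟙 _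
    rw [Category.comp_id]
  | succ n ih =>
    rw [dl_succ, dl_succ, dl_succ, tensorHom_comp_tensorHom, ← ih]
    have h2 : ρ ((g * h) (Fin.last n)) = (ρ (h (Fin.last n)) : X ⟶ X) ≫ ρ (g (Fin.last n)) := by
      rw [Pi.mul_apply, map_mul, End.mul_def]
    rw [h2]
    rfl

/-- the same as a homomorphism -/
def dlh {G : Type} [Group G] {X : C} (ρ : G →* End X) (n : ℕ) : (Fin n → G) →* End (tp X n) where
  toFun g := dl ρ n g
  map_one' := dl_one ρ n
  map_mul' g h := dl_mul ρ n g h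

theorem act_dl {G : Type} [Group G] {X : C} (ρ : G →* End X) (n : ℕ) (a : tp X n ⟶ tp X n)
    (ha : IsAct ρ n a) : ∃ g : Fin n → G, dl ρ n g = a := by
  induction ha with
  | last n g =>
    refine ⟨(Fin.snoc (1 : Fin n → G) g : Fin (n + 1) → G), ?_⟩
    rw [dl_snoc, dl_one, id_tensorHom]
  | lift n a _ ih =>
    obtain ⟨g, rfl⟩ := ih
    refine ⟨(Fin.snoc g 1 : Fin (n + 1) → G), ?_⟩
    rw [dl_snoc, map_one]
    exact tensorHom_id _ _

end

section

variable {C : Type u} [Category.{v} C] [MonoidalCategory C] [SymmetricCategory C]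

theorem swap_dl {G : Type} [Group G] {X : C} (ρ : G →* End X) (n : ℕ) (t : tp X n ⟶ tp X n)
    (ht : IsSwap X n t) : ∀ g : Fin n → G, ∃ g' : Fin n → G, dl ρ n g ≫ t = t ≫ dl ρ n g' := by
  induction ht with
  | last n =>
    intro g
    refine ⟨(Fin.snoc (Fin.snoc (fun i : Fin n => g i.castSucc.castSucc) (g (Fin.last (n + 1))) :
      Fin (n + 1) → G) (g (Fin.last n).castSucc) : Fin (n + 2) → G), ?_⟩
    rw [dl_snoc, dl_snoc, dl_succ, dl_succ]
    exact sw_nat _ _ _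
  | lift n s _ ih =>
    intro g
    obtain ⟨g', hg⟩ := ih (fun i => g i.castSucc)
    refine ⟨(Fin.snoc g' (g (Fin.last n)) : Fin (n + 1) → G), ?_⟩
    rw [dl_snoc, dl_succ, ← tensorHom_id, tensorHom_comp_tensorHom, tensorHom_comp_tensorHom, hg,
      Category.id_comp, Category.comp_id]

end

theorem t_GRP : S_GRP.{v, u} := by
  intro C _ _ _ _ _ _ _ G _ _ M ρ n
  obtain ⟨σ, hσ⟩ := exists_rho' M n
  obtain ⟨Γ, hfin, h1, h2⟩ := fin_group (dlh ρ n).toHomUnits σ.toHomUnits (by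
    intro b
    refine perm_induction (P := fun b => ∀ a : Fin n → G, ∃ a',
      σ.toHomUnits b * (dlh ρ n).toHomUnits a = (dlh ρ n).toHomUnits a' * σ.toHomUnits b)
      ?_ ?_ ?_ b
    · intro a
      exact ⟨a, by simp⟩
    · intro g h hg hh a
      obtain ⟨a', ha⟩ := hh a
      obtain ⟨a'', ha'⟩ := hg a'
      refine ⟨a'', ?_⟩
      rw [map_mul, mul_assoc, ha, ← mul_assoc, ha', mul_assoc]
    · intro i hi a
      obtain ⟨a', ha⟩ := swap_dl ρ n _ (isSwap_adj M hi) a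
      refine ⟨a', ?_⟩
      ext
      rw [Units.val_mul, Units.val_mul, MonoidHom.coe_toHomUnits, MonoidHom.coe_toHomUnits,
        MonoidHom.coe_toHomUnits, hσ i hi]
      exact ha)
  refine ⟨Γ, hfin, ?_, ?_⟩
  · intro s hs
    obtain ⟨i, hi, rfl⟩ := exists_adj M hs
    exact ⟨_, h2 (Equiv.swap ⟨i, by omega⟩ ⟨i + 1, hi⟩), hσ i hi⟩
  · intro a ha
    obtain ⟨g, hg⟩ := act_dl ρ n a ha
    exact ⟨_, h1 g, hg⟩

end Pool.Agent.K3h68.IQ
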